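import Pool.Agent.Work.MP_0a1f67_ag.Open

open Matrix Filter Topology
open scoped Matrix.Norms.Frobenius

namespace Pool.Agent.Work.MP_0a1f67_ag

variable {V : Type*} [Fintype V] [DecidableEq V]

/-- The symmetric elementary matrix. -/
def esym (i j : V) : Matrix V V ℝ := single i j 1 + single j i 1

omit [Fintype V] in
lemma esym_isSymm (i j : V) : (esym i j).IsSymm := by
  unfold esym
  rw [Matrix.IsSymm, transpose_add, transpose_single, transpose_single, add_comm]

omit [Fintype V] in
lemma esym_apply (i j a b : V) :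
    esym i j a b = (if i = a ∧ j = b then 1 else 0) + (if j = a ∧ i = b then 1 else 0) := by
  simp [esym, single_apply]

/-- Jacobi's formula in the direction `X` at an invertible matrix. -/
lemma hasDerivAt_det_line {A : Matrix V V ℝ} (hA : IsUnit A.det) (X : Matrix V V ℝ) :
    HasDerivAt (fun t : ℝ => (A + t • X).det) (A.det * (A⁻¹ * X).trace) 0 := by
  set q : Polynomial ℝ :=
    (1 + (Polynomial.X : Polynomial ℝ) • (A⁻¹ * X).map Polynomial.C).det with hq
  have h1 : ∀ t : ℝ, (A + t • X).det = A.det * Polynomial.eval t q := by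
    intro t
    have e1 : A + t • X = A * (1 + t • (A⁻¹ * X)) := by
      rw [Matrix.mul_add, Matrix.mul_one, Matrix.mul_smul, ← Matrix.mul_assoc,
        Matrix.mul_nonsing_inv _ hA, Matrix.one_mul]
    rw [e1, det_mul]
    congr 1
    rw [hq, ← Polynomial.coe_evalRingHom, RingHom.map_det]
    congr 1
    generalize A⁻¹ * X = M
    ext a b
    by_cases hab : a = b
    · subst hab; simp [RingHom.mapMatrix_apply]; ring
    · simp [RingHom.mapMatrix_apply, hab]; ring
  have h2 : HasDerivAt (fun t => A.det * Polynomial.eval t q)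
      (A.det * Polynomial.eval 0 (Polynomial.derivative q)) 0 :=
    (q.hasDerivAt 0).const_mul _
  rw [hq, derivative_det_one_add_X_smul] at h2
  have h3 : (fun t : ℝ => (A + t • X).det) = fun t => A.det * Polynomial.eval t q := by
    ext t; exact h1 t
  rw [h3]
  exact h2

omit [DecidableEq V] in
lemma isClosed_posSemidef : IsClosed {A : Matrix V V ℝ | A.PosSemidef} := by
  have : {A : Matrix V V ℝ | A.PosSemidef} =
      {A : Matrix V V ℝ | Aᵀ = A} ∩ ⋂ x : V → ℝ, {A : Matrix V V ℝ | 0 ≤ x ⬝ᵥ (A *ᵥ x)} := by
    ext A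
    simp only [Set.mem_ofPred_eq, Set.mem_inter_iff, Set.mem_iInter]
    rw [posSemidef_iff_dotProduct_mulVec, IsHermitian, conjTranspose_eq_transpose_of_trivial]
    simp
  rw [this]
  refine IsClosed.inter ?_ (isClosed_iInter fun x => ?_)
  · exact isClosed_eq (continuous_id.matrix_transpose) continuous_id
  · refine isClosed_le continuous_const ?_
    exact continuous_quad.comp (continuous_id.prodMk continuous_const)

lemma quad_add (A : Matrix V V ℝ) (i j : V) (s : ℝ) :
    (Pi.single i 1 + s • Pi.single j 1 : V → ℝ) ⬝ᵥ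
      (A *ᵥ (Pi.single i 1 + s • Pi.single j 1 : V → ℝ)) =
      A i i + s * A i j + s * A j i + s ^ 2 * A j j := by
  rw [mulVec_add, mulVec_smul, dotProduct_add, add_dotProduct, add_dotProduct]
  simp only [dotProduct_smul, smul_dotProduct, single_one_dotProduct, mulVec_single_one, col_apply,
    smul_eq_mul]
  ring

lemma posSemidef_entry_bound {A : Matrix V V ℝ} (hA : A.PosSemidef) (i j : V) :
    |A i j| ≤ (A i i + A j j) / 2 := by
  have hs : A j i = A i j := by
    have := hA.isHermitian.apply i j
    simpa using this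
  have h1 := hA.dotProduct_mulVec_nonneg (Pi.single i 1 + (1 : ℝ) • Pi.single j 1 : V → ℝ)
  have h2 := hA.dotProduct_mulVec_nonneg (Pi.single i 1 + (-1 : ℝ) • Pi.single j 1 : V → ℝ)
  rw [star_trivial, quad_add] at h1 h2
  rw [abs_le]
  constructor <;> linarith

lemma exists_completion (G : SimpleGraph V) {S : Matrix V V ℝ} (hS : S.PosDef) :
    ∃ A : Matrix V V ℝ, A.PosDef ∧ (∀ i, A i i = S i i) ∧ (∀ i j, G.Adj i j → A i j = S i j) ∧
      ∀ i j, i ≠ j → ¬ G.Adj i j → A⁻¹ i j = 0 := by
  set K : Set (Matrix V V ℝ) :=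
    {A | A.PosSemidef} ∩ {A | ∀ i j, (i = j ∨ G.Adj i j) → A i j = S i j} with hK
  have hKclosed : IsClosed K := by
    refine isClosed_posSemidef.inter ?_
    have : {A : Matrix V V ℝ | ∀ i j, (i = j ∨ G.Adj i j) → A i j = S i j} =
        ⋂ i, ⋂ j, ⋂ _ : (i = j ∨ G.Adj i j), {A : Matrix V V ℝ | A i j = S i j} := by
      ext A; simp
    rw [this]
    refine isClosed_iInter fun i => isClosed_iInter fun j => isClosed_iInter fun _ => ?_
    exact isClosed_eq ((continuous_apply j).comp (continuous_apply i)) continuous_const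
  set T : Set (Matrix V V ℝ) :=
    Set.pi Set.univ fun i => Set.pi Set.univ fun j =>
      Set.Icc (-((S i i + S j j) / 2)) ((S i i + S j j) / 2) with hT
  have hTc : IsCompact T := isCompact_univ_pi fun i => isCompact_univ_pi fun j => isCompact_Icc
  have hKT : K ⊆ T := by
    rintro A ⟨hA1, hA2⟩ i _ j _
    have h := posSemidef_entry_bound hA1 i j
    rw [hA2 i i (Or.inl rfl), hA2 j j (Or.inl rfl)] at h
    exact abs_le.mp h
  have hKc : IsCompact K := hTc.of_isClosed_subset hKclosed hKT
  have hSK : S ∈ K := ⟨hS.posSemidef, fun _ _ _ => rfl⟩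
  obtain ⟨A, hAK, hAmax⟩ := hKc.exists_isMaxOn ⟨S, hSK⟩
    (continuous_id.matrix_det (R := ℝ)).continuousOn
  have hdet : 0 < A.det := lt_of_lt_of_le hS.det_pos (hAmax hSK)
  have hApd : A.PosDef := hAK.1.posDef_iff_det_ne_zero.mpr hdet.ne'
  refine ⟨A, hApd, fun i => hAK.2 i i (Or.inl rfl), fun i j h => hAK.2 i j (Or.inr h), ?_⟩
  intro i j hij hG
  have hG' : ¬ G.Adj j i := fun h => hG h.symm
  have hAs : A.IsSymm := by
    have := hApd.isHermitian
    rwa [IsHermitian, conjTranspose_eq_transpose_of_trivial] at this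
  have hlim : Tendsto (fun t : ℝ => A + t • esym i j) (𝓝 0) (𝓝 A) := by
    have : Continuous fun t : ℝ => A + t • esym i j :=
      continuous_const.add (continuous_id.smul continuous_const)
    have h := this.tendsto 0
    simpa using h
  have hloc : IsLocalMax (fun t : ℝ => (A + t • esym i j).det) 0 := by
    have h1 := hlim.eventually (eventually_posDef hApd)
    filter_upwards [h1] with t ht
    have hpd : (A + t • esym i j).PosDef := by
      apply ht
      rw [Matrix.IsSymm, transpose_add, transpose_smul, hAs, esym_isSymm i j]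
    have hmem : A + t • esym i j ∈ K := by
      refine ⟨hpd.posSemidef, ?_⟩
      intro a b hab
      rw [← hAK.2 a b hab]
      have hz : esym i j a b = 0 := by
        rw [esym_apply]
        have c1 : ¬ (i = a ∧ j = b) := by
          rintro ⟨rfl, rfl⟩
          rcases hab with h | h
          · exact hij h
          · exact hG h
        have c2 : ¬ (j = a ∧ i = b) := by
          rintro ⟨rfl, rfl⟩
          rcases hab with h | h
          · exact hij h.symm
          · exact hG' h
        simp [c1, c2]
      simp [hz]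
    have := hAmax hmem
    simpa using this
  have hder := hloc.hasDerivAt_eq_zero (hasDerivAt_det_line
    ((Matrix.isUnit_iff_isUnit_det _).mp hApd.isUnit) (esym i j))
  have htr : (A⁻¹ * esym i j).trace = 2 * A⁻¹ i j := by
    have hAi : (A⁻¹).IsSymm := by
      have := hApd.inv.isHermitian
      rwa [IsHermitian, conjTranspose_eq_transpose_of_trivial] at this
    have h2 : A⁻¹ j i = A⁻¹ i j := hAi.apply i j
    unfold esym
    rw [Matrix.mul_add, trace_add, trace_mul_single, trace_mul_single, h2]
    simp
    ring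
  rw [htr] at hder
  rcases mul_eq_zero.mp hder with h | h
  · exact absurd h hdet.ne'
  · linarith

end Pool.Agent.Work.MP_0a1f67_ag
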