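import Mathlib

open Matrix
open scoped Matrix.Norms.Frobenius ContDiff

/-! Definitions for the problem on double Markovian Gaussian correlation models. -/

namespace Pool.Agent.Work.MP_0a1f67_ag

/-- The double Markovian correlation model `M₁(G, H)`: positive definite real matrices `S` with all
diagonal entries equal to `1`, with `(S⁻¹) i j = 0` for every non-edge `ij` of `G` and `S i j = 0`
for every non-edge `ij` of `H`. -/
def corrModel {V : Type*} [Fintype V] [DecidableEq V] (G H : SimpleGraph V) :
    Set (Matrix V V ℝ) :=
  {S | S.PosDef ∧ (∀ i, S i i = 1) ∧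
    (∀ i j, i ≠ j → ¬ G.Adj i j → S⁻¹ i j = 0) ∧
    (∀ i j, i ≠ j → ¬ H.Adj i j → S i j = 0)}

/-- The set `S` has at the point `x` a slice chart of class `C^k` and dimension `d`: a `C^k`
diffeomorphism `φ` between open subsets of `E`, with `x` in its source, that maps `S` (inside the
source of `φ`) onto a `d`-dimensional linear subspace `W` (inside the target of `φ`). -/
def HasSliceChartAt {E : Type*} [NormedAddCommGroup E] [NormedSpace ℝ E]
    (k : ℕ∞ω) (d : ℕ) (S : Set E) (x : E) : Prop :=
  ∃ (φ : OpenPartialHomeomorph E E) (W : Submodule ℝ E), Module.finrank ℝ W = d ∧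
    x ∈ φ.source ∧ ContDiffOn ℝ k φ φ.source ∧ ContDiffOn ℝ k φ.symm φ.target ∧
      φ '' (φ.source ∩ S) = φ.target ∩ W

/-- `S` is an embedded submanifold of class `C^k` of the normed space `E`: it has a slice chart of
class `C^k` at each of its points. The dimension is allowed to depend on the point. -/
def IsEmbeddedSubmanifold {E : Type*} [NormedAddCommGroup E] [NormedSpace ℝ E]
    (k : ℕ∞ω) (S : Set E) : Prop :=
  ∀ x ∈ S, ∃ d : ℕ, HasSliceChartAt k d S x

/-- `S` is an embedded submanifold of class `C^k` and of pure dimension `d` of the normed space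
`E`: it has a slice chart of class `C^k` and dimension `d` at each of its points. -/
def IsEmbeddedSubmanifoldOfDim {E : Type*} [NormedAddCommGroup E] [NormedSpace ℝ E]
    (k : ℕ∞ω) (d : ℕ) (S : Set E) : Prop :=
  ∀ x ∈ S, HasSliceChartAt k d S x

/-- The subset of the affine space of real symmetric matrices cut out by a set `I` of real
polynomials in the matrix entries. -/
def symZeroLocus {V : Type*} (I : Set (MvPolynomial (V × V) ℝ)) : Set (Matrix V V ℝ) :=
  {A | A.IsSymm ∧ ∀ p ∈ I, MvPolynomial.eval (fun ij : V × V => A ij.1 ij.2) p = 0}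

/-- The Zariski closure of a set `S` of matrices in the affine space of real symmetric matrices:
the common zeros, among symmetric matrices, of all polynomials vanishing on `S`. -/
def zariskiClosure {V : Type*} (S : Set (Matrix V V ℝ)) : Set (Matrix V V ℝ) :=
  symZeroLocus {p | ∀ A ∈ S, MvPolynomial.eval (fun ij : V × V => A ij.1 ij.2) p = 0}

/-- A set of symmetric matrices is irreducible in the Zariski topology: it is nonempty and is not
covered by two Zariski closed sets unless one of them already contains it. -/
def IsZariskiIrreducible {V : Type*} (Z : Set (Matrix V V ℝ)) : Prop :=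
  Z.Nonempty ∧ ∀ I J : Set (MvPolynomial (V × V) ℝ), Z ⊆ symZeroLocus I ∪ symZeroLocus J →
    Z ⊆ symZeroLocus I ∨ Z ⊆ symZeroLocus J

end Pool.Agent.Work.MP_0a1f67_ag
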