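import Mathlib

open Filter Topology MeasureTheory Set
open scoped ContDiff ENNReal NNReal

namespace Pool.Agent.Work.MP_0a1f67_ag

variable {E : Type*} [NormedAddCommGroup E] [NormedSpace ℝ E] [FiniteDimensional ℝ E]

lemma exists_nhds_dimH_le {g : E → ℝ} {g' : E →L[ℝ] ℝ} {x : E} (hg : HasStrictFDerivAt g g' x)
    (h0 : g' ≠ 0) :
    ∃ s ∈ 𝓝 x, dimH {y | y ∈ s ∧ g y = g x} ≤ ((Module.finrank ℝ E - 1 : ℕ) : ℝ≥0∞) := by
  have : CompleteSpace E := FiniteDimensional.complete ℝ E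
  have hsurj : g'.range = ⊤ := by
    rw [LinearMap.range_eq_top]
    apply LinearMap.surjective
    intro h
    apply h0
    ext y
    exact congrArg (fun L => L y) h
  obtain ⟨K, t, ht, hL⟩ := (hg.to_implicitFunction hsurj).exists_lipschitzOnWith
  set Φ := hg.implicitToOpenPartialHomeomorph g g' hsurj with hΦ
  have hcont : Tendsto (fun y => (Φ y).snd) (𝓝 x) (𝓝 0) := by
    have h1 : ContinuousAt Φ x :=
      Φ.continuousAt (hg.mem_implicitToOpenPartialHomeomorph_source hsurj)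
    have h2 := (continuous_snd.tendsto (Φ x)).comp h1
    have h3 : (Φ x).2 = 0 := by
      rw [hΦ, hg.implicitToOpenPartialHomeomorph_self hsurj]
    rwa [h3] at h2
  refine ⟨_, (hg.eq_implicitFunction hsurj).and (hcont.eventually ht), ?_⟩
  have hfin : Module.finrank ℝ g'.ker = Module.finrank ℝ E - 1 := by
    have := LinearMap.finrank_range_add_finrank_ker (g' : E →ₗ[ℝ] ℝ)
    rw [hsurj] at this
    simp at this
    omega
  calc dimH {y | y ∈ {x | _} ∧ g y = g x}
      ≤ dimH (hg.implicitFunction g g' hsurj (g x) '' t) := by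
        apply dimH_mono
        rintro y ⟨⟨hy1, hy2⟩, hy3⟩
        refine ⟨(Φ y).snd, hy2, ?_⟩
        rw [← hy3]
        exact hy1
    _ ≤ dimH t := hL.dimH_image_le
    _ ≤ dimH (univ : Set g'.ker) := dimH_mono (subset_univ _)
    _ = ((Module.finrank ℝ g'.ker : ℕ) : ℝ≥0∞) := Real.dimH_univ_eq_finrank _
    _ = _ := by rw [hfin]

/-- An analytic function with all iterated derivatives vanishing at a point vanishes nearby. -/
lemma eventually_eq_zero_of_iteratedFDeriv {f : E → ℝ} {x : E} (hf : AnalyticAt ℝ f x)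
    (h : ∀ n, iteratedFDeriv ℝ n f x = 0) : f =ᶠ[𝓝 x] 0 := by
  have : CompleteSpace E := FiniteDimensional.complete ℝ E
  obtain ⟨p, r, hp⟩ := hf
  filter_upwards [Metric.eball_mem_nhds x hp.r_pos] with y hy
  have hy' : y - x ∈ Metric.eball (0 : E) r := by
    rw [Metric.mem_eball] at hy ⊢
    rwa [edist_zero_right, ← edist_eq_enorm_sub]
  have hs := hp.hasSum_iteratedFDeriv hy'
  have hz : (fun n : ℕ => ((n.factorial : ℝ))⁻¹ • iteratedFDeriv ℝ n f x fun _ => y - x) =
      fun _ => 0 := by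
    ext n
    rw [h n]
    simp
  rw [hz] at hs
  have := hs.unique hasSum_zero
  simpa using this

/-- The zero set of a real-analytic function that is nowhere locally zero has Hausdorff dimension
at most one less than that of the ambient space. -/
lemma dimH_zeros_le {f : E → ℝ} {U : Set E} (hU : IsOpen U) (hf : AnalyticOnNhd ℝ f U)
    (hne : ∀ x ∈ U, ¬ f =ᶠ[𝓝 x] 0) :
    dimH {x | x ∈ U ∧ f x = 0} ≤ ((Module.finrank ℝ E - 1 : ℕ) : ℝ≥0∞) := by
  have : CompleteSpace E := FiniteDimensional.complete ℝ E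
  set Z : ℕ → Set E := fun n =>
    {x | x ∈ U ∧ iteratedFDeriv ℝ n f x = 0 ∧ iteratedFDeriv ℝ (n + 1) f x ≠ 0} with hZ
  have hcover : {x | x ∈ U ∧ f x = 0} ⊆ ⋃ n, Z n := by
    rintro x ⟨hxU, hx⟩
    have hex : ∃ n, iteratedFDeriv ℝ n f x ≠ 0 := by
      by_contra hc
      push Not at hc
      exact hne x hxU (eventually_eq_zero_of_iteratedFDeriv (hf x hxU) hc)
    classical
    obtain ⟨m, hm⟩ : ∃ m, Nat.find hex = m := ⟨_, rfl⟩
    have h1 := Nat.find_spec hex
    have h2 : ∀ k < Nat.find hex, iteratedFDeriv ℝ k f x = 0 := by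
      intro k hk
      have := Nat.find_min hex hk
      push Not at this
      exact this
    rw [hm] at h1 h2
    rcases m with _ | n
    · exfalso
      apply h1
      ext v
      simp [hx]
    · rw [mem_iUnion]
      exact ⟨n, hxU, h2 n (Nat.lt_succ_self n), h1⟩
  refine (dimH_mono hcover).trans ?_
  rw [dimH_iUnion]
  refine iSup_le fun n => ?_
  by_contra hlt
  push Not at hlt
  obtain ⟨x, hxZ, hx⟩ := exists_mem_nhdsWithin_lt_dimH_of_lt_dimH hlt
  obtain ⟨hxU, hx0, hx1⟩ := hxZ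
  obtain ⟨m, hm⟩ : ∃ m : Fin (n + 1) → E, iteratedFDeriv ℝ (n + 1) f x m ≠ 0 := by
    by_contra hc
    push Not at hc
    exact hx1 (by ext m; simpa using hc m)
  have han : AnalyticAt ℝ (iteratedFDeriv ℝ n f) x := (hf.iteratedFDeriv_of_isOpen hU n) x hxU
  have hstr := han.hasStrictFDerivAt
  set L := ContinuousMultilinearMap.apply ℝ (fun _ : Fin n => E) ℝ (Fin.tail m) with hL
  have hg : HasStrictFDerivAt (fun y => L (iteratedFDeriv ℝ n f y))
      (L.comp (fderiv ℝ (iteratedFDeriv ℝ n f) x)) x := L.hasStrictFDerivAt.comp x hstr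
  have hne0 : L.comp (fderiv ℝ (iteratedFDeriv ℝ n f) x) ≠ 0 := by
    intro h
    apply hm
    rw [iteratedFDeriv_succ_apply_left]
    have := congrArg (fun T => T (m 0)) h
    simpa [hL] using this
  obtain ⟨s, hs, hdim⟩ := exists_nhds_dimH_le hg hne0
  have hmem : {y | y ∈ s ∧ L (iteratedFDeriv ℝ n f y) = L (iteratedFDeriv ℝ n f x)} ∩ Z n ∈
      𝓝[Z n] x := by
    have h1 : Z n ∈ 𝓝[Z n] x := self_mem_nhdsWithin
    have h2 : s ∈ 𝓝[Z n] x := nhdsWithin_le_nhds hs
    filter_upwards [h1, h2] with y hy1 hy2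
    refine ⟨⟨hy2, ?_⟩, hy1⟩
    rw [hy1.2.1, hx0]
  have h3 := hx _ hmem
  exact absurd (lt_of_lt_of_le h3 ((dimH_mono inter_subset_left).trans hdim)) (lt_irrefl _)

end Pool.Agent.Work.MP_0a1f67_ag
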