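import Pool.Agent.Work.MP_0a1f67_ag.Smooth
import Pool.Agent.Work.MP_0a1f67_ag.DimH

open Matrix Filter Topology
open scoped Matrix.Norms.Frobenius ContDiff ENNReal NNReal

namespace Pool.Agent.Work.MP_0a1f67_ag

variable {V : Type*} [Fintype V] [DecidableEq V]

/-- Restriction of a matrix to the common edges. -/
noncomputable def toEdges (G H : SimpleGraph V) :
    edgeSpace G H →ₗ[ℝ] (↥(G.edgeSet ∩ H.edgeSet) → ℝ) where
  toFun X := fun e => X.1 (Quot.out e.1).1 (Quot.out e.1).2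
  map_add' X Y := by ext e; simp
  map_smul' c X := by ext e; simp

lemma toEdges_injective (G H : SimpleGraph V) : Function.Injective (toEdges G H) := by
  rw [← LinearMap.ker_eq_bot, LinearMap.ker_eq_bot']
  intro X hX
  apply Subtype.ext
  ext i j
  by_cases hc : G.Adj i j ∧ H.Adj i j
  · have hmem : s(i, j) ∈ G.edgeSet ∩ H.edgeSet := by
      refine ⟨?_, ?_⟩
      · rw [SimpleGraph.mem_edgeSet]; exact hc.1
      · rw [SimpleGraph.mem_edgeSet]; exact hc.2
    have h1 := congrFun hX ⟨s(i, j), hmem⟩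
    have h2 : X.1 (Quot.out s(i, j)).1 (Quot.out s(i, j)).2 = 0 := h1
    have h3 : s((Quot.out s(i, j)).1, (Quot.out s(i, j)).2) = s(i, j) := Quot.out_eq _
    rw [Sym2.eq_iff] at h3
    rcases h3 with ⟨h3, h4⟩ | ⟨h3, h4⟩
    · rw [h3, h4] at h2; simpa using h2
    · rw [h3, h4] at h2
      have := X.2.1.apply i j
      rw [← this]; simpa using h2
  · rw [X.2.2 i j hc]; rfl

lemma finrank_edgeSpace_le (G H : SimpleGraph V) :
    Module.finrank ℝ (edgeSpace G H) ≤ (G.edgeSet ∩ H.edgeSet).ncard := by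
  classical
  have h1 := LinearMap.finrank_le_finrank_of_injective (toEdges_injective G H)
  rw [Module.finrank_fintype_fun_eq_card] at h1
  rwa [Set.ncard_eq_toFinset_card', Set.toFinset_card]

lemma dimH_corrModel_le (G H : SimpleGraph V) : dimH (corrModel G H) ≤ dimH (zset G H) := by
  rw [corrModel_eq_image]
  refine dimH_image_le_of_locally_lipschitzOn ?_
  intro X hX
  have h1 : ContDiffAt ℝ 1 (cmp G H) X := (contDiffAt_cmp G H hX.1).of_le le_top
  obtain ⟨K, t, ht, hL⟩ := h1.exists_lipschitzOnWith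
  exact ⟨K, t, nhdsWithin_le_nhds ht, hL⟩

/-- If the Hausdorff dimension of the model is at least the number of common edges then every
parameter gives a point of the model. -/
theorem zset_eq_dom_of_dim (G H : SimpleGraph V)
    (h : ((G.edgeSet ∩ H.edgeSet).ncard : ℝ≥0∞) ≤ dimH (corrModel G H)) :
    zset G H = dom G H := by
  by_contra hne
  have hex : ∃ Y ∈ dom G H, ∃ i j, i ≠ j ∧ ¬ G.Adj i j ∧ ¬ H.Adj i j ∧ cmp G H Y i j ≠ 0 := by
    by_contra hc
    push Not at hc
    apply hne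
    refine Set.Subset.antisymm (fun Y hY => hY.1) ?_
    intro Y hY
    exact ⟨hY, fun i j hij hG hH => hc Y hY i j hij hG hH⟩
  obtain ⟨Y, hY, i, j, hij, hG, hH, hYne⟩ := hex
  have han := analyticOnNhd_cmp_entry G H i j
  have hnl : ∀ X ∈ dom G H, ¬ (fun X => cmp G H X i j) =ᶠ[𝓝 X] 0 := by
    intro X hX h0
    exact hYne (han.eqOn_zero_of_preconnected_of_eventuallyEq_zero
      (convex_dom G H).isPreconnected hX h0 hY)
  have h1 := dimH_zeros_le (isOpen_dom G H) han hnl
  have h2 : zset G H ⊆ {X | X ∈ dom G H ∧ cmp G H X i j = 0} :=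
    fun X hX => ⟨hX.1, hX.2 i j hij hG hH⟩
  have h3 : ((G.edgeSet ∩ H.edgeSet).ncard : ℝ≥0∞) ≤
      ((Module.finrank ℝ (edgeSpace G H) - 1 : ℕ) : ℝ≥0∞) :=
    h.trans ((dimH_corrModel_le G H).trans ((dimH_mono h2).trans h1))
  have h4 : (G.edgeSet ∩ H.edgeSet).ncard ≤ Module.finrank ℝ (edgeSpace G H) - 1 := by
    exact_mod_cast h3
  have h5 := finrank_edgeSpace_le G H
  have h6 : Module.finrank ℝ (edgeSpace G H) = 0 := by omega
  have h7 : Subsingleton (edgeSpace G H) := Module.finrank_zero_iff.mp h6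
  have h8 : Y = 0 := Subsingleton.elim _ _
  have h0 : cmp G H 0 = 1 := by
    apply cmp_unique G H PosDef.one (fun i => by simp)
    · intro i j h; simp [h.ne]
    · intro i j hij _; simp [hij]
  rw [h8, h0] at hYne
  simp [hij] at hYne

lemma finrank_edgeSpace_eq (G H : SimpleGraph V)
    (h : ((G.edgeSet ∩ H.edgeSet).ncard : ℝ≥0∞) ≤ dimH (corrModel G H)) :
    Module.finrank ℝ (edgeSpace G H) = (G.edgeSet ∩ H.edgeSet).ncard := by
  refine le_antisymm (finrank_edgeSpace_le G H) ?_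
  have h1 : ((G.edgeSet ∩ H.edgeSet).ncard : ℝ≥0∞) ≤ (Module.finrank ℝ (edgeSpace G H) : ℝ≥0∞) :=
    (h.trans (dimH_corrModel_le G H)).trans
      ((dimH_mono (Set.subset_univ _)).trans_eq (Real.dimH_univ_eq_finrank _))
  exact_mod_cast h1

/-- Question 1: a double Markovian correlation model of maximal dimension is smooth. -/
theorem submanifold_of_dim (G H : SimpleGraph V)
    (h : ((G.edgeSet ∩ H.edgeSet).ncard : ℝ≥0∞) ≤ dimH (corrModel G H)) (k : ℕ∞ω) :
    IsEmbeddedSubmanifoldOfDim k (G.edgeSet ∩ H.edgeSet).ncard (corrModel G H) := by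
  rw [← finrank_edgeSpace_eq G H h]
  exact isEmbeddedSubmanifold_of_zset_eq_dom G H (zset_eq_dom_of_dim G H h) k

end Pool.Agent.Work.MP_0a1f67_ag
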