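import Pool.Agent.Work.MP_0a1f67_ag.Param

open Matrix Filter Topology
open scoped Matrix.Norms.Frobenius ContDiff

namespace Pool.Agent.Work.MP_0a1f67_ag

variable {V : Type*} [Fintype V] [DecidableEq V]

open Classical in
/-- Projection of a matrix to the space of symmetric matrices supported on common edges. -/
noncomputable def projL (G H : SimpleGraph V) : Matrix V V ℝ →ₗ[ℝ] edgeSpace G H where
  toFun A := ⟨Matrix.of fun i j => if G.Adj i j ∧ H.Adj i j then (A i j + A j i) / 2 else 0, by
    constructor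
    · ext i j
      simp only [transpose_apply, of_apply]
      rw [G.adj_comm, H.adj_comm, add_comm]
    · intro i j h
      simp [h]⟩
  map_add' A B := by
    apply Subtype.ext
    ext i j
    by_cases h : G.Adj i j ∧ H.Adj i j
    · simp [h]; ring
    · simp [h]
  map_smul' c A := by
    apply Subtype.ext
    ext i j
    by_cases h : G.Adj i j ∧ H.Adj i j
    · simp [h]; ring
    · simp [h]

/-- The projection as a continuous linear map. -/
noncomputable def proj (G H : SimpleGraph V) : Matrix V V ℝ →L[ℝ] edgeSpace G H :=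
  LinearMap.toContinuousLinearMap (projL G H)

open Classical in
lemma proj_apply (G H : SimpleGraph V) (A : Matrix V V ℝ) (i j : V) :
    (proj G H A).1 i j = if G.Adj i j ∧ H.Adj i j then (A i j + A j i) / 2 else 0 := rfl

lemma proj_of_symm (G H : SimpleGraph V) {A : Matrix V V ℝ} (hA : A.IsSymm) {X : edgeSpace G H}
    (h : ∀ i j, G.Adj i j → H.Adj i j → A i j = X.1 i j) : proj G H A = X := by
  apply Subtype.ext
  ext i j
  rw [proj_apply]
  by_cases hij : G.Adj i j ∧ H.Adj i j
  · rw [if_pos hij, hA.apply i j, h i j hij.1 hij.2]; ring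
  · rw [if_neg hij, X.2.2 i j hij]

lemma proj_coe (G H : SimpleGraph V) (X : edgeSpace G H) : proj G H X.1 = X :=
  proj_of_symm G H X.2.1 (fun _ _ _ _ => rfl)

lemma PosDef_isSymm {A : Matrix V V ℝ} (hA : A.PosDef) : A.IsSymm := by
  have := hA.isHermitian
  rwa [IsHermitian, conjTranspose_eq_transpose_of_trivial] at this

lemma proj_cmp (G H : SimpleGraph V) {X : edgeSpace G H} (hX : X ∈ dom G H) :
    proj G H (cmp G H X) = X := by
  obtain ⟨g1, g2, g3, g4⟩ := cmp_spec G H hX
  exact proj_of_symm G H (PosDef_isSymm g1) (fun i j h _ => g3 i j h)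

/-- The parameters of the points of the model. -/
def zset (G H : SimpleGraph V) : Set (edgeSpace G H) :=
  {X | X ∈ dom G H ∧ ∀ i j, i ≠ j → ¬ G.Adj i j → ¬ H.Adj i j → cmp G H X i j = 0}

lemma cmp_mem_corrModel (G H : SimpleGraph V) {X : edgeSpace G H} (hX : X ∈ zset G H) :
    cmp G H X ∈ corrModel G H := by
  obtain ⟨hd, hz⟩ := hX
  obtain ⟨g1, g2, g3, g4⟩ := cmp_spec G H hd
  refine ⟨g1, g2, g4, ?_⟩
  intro i j hij hH
  by_cases hG : G.Adj i j
  · rw [g3 i j hG]
    exact X.2.2 i j (fun h => hH h.2)
  · exact hz i j hij hG hH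

lemma corrModel_param (G H : SimpleGraph V) {A : Matrix V V ℝ} (hA : A ∈ corrModel G H) :
    proj G H A ∈ zset G H ∧ cmp G H (proj G H A) = A := by
  obtain ⟨h1, h2, h3, h4⟩ := hA
  have hs := PosDef_isSymm h1
  have h5 : ∀ i j, G.Adj i j → A i j = (proj G H A).1 i j := by
    intro i j hG
    rw [proj_apply]
    by_cases hH : H.Adj i j
    · rw [if_pos ⟨hG, hH⟩, hs.apply i j]; ring
    · rw [if_neg (fun h => hH h.2), h4 i j hG.ne hH]
  have h6 : cmp G H (proj G H A) = A := cmp_unique G H h1 h2 h5 h3
  refine ⟨⟨⟨A, h1, h2, h5⟩, ?_⟩, h6⟩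
  intro i j hij _ hH
  rw [h6]
  exact h4 i j hij hH

lemma corrModel_eq_image (G H : SimpleGraph V) : corrModel G H = cmp G H '' zset G H := by
  ext A
  constructor
  · intro hA
    exact ⟨_, (corrModel_param G H hA).1, (corrModel_param G H hA).2⟩
  · rintro ⟨X, hX, rfl⟩
    exact cmp_mem_corrModel G H hX

/-- A matrix entry as a continuous linear functional. -/
noncomputable def entry (i j : V) : Matrix V V ℝ →L[ℝ] ℝ :=
  LinearMap.toContinuousLinearMap (Matrix.entryLinearMap ℝ ℝ i j)

lemma entry_apply (i j : V) (A : Matrix V V ℝ) : entry i j A = A i j := rfl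

lemma analyticOnNhd_cmp_entry (G H : SimpleGraph V) (i j : V) :
    AnalyticOnNhd ℝ (fun X => cmp G H X i j) (dom G H) := by
  intro X hX
  have h1 : ContDiffAt ℝ ω (fun X => entry i j (cmp G H X)) X :=
    ((entry i j).contDiff.contDiffAt).comp X (contDiffAt_cmp G H hX)
  exact h1.analyticAt

/-- If the parameter set is a neighbourhood of one of its points then it is the whole domain. -/
lemma zset_eq_dom (G H : SimpleGraph V) {X : edgeSpace G H} (hX : zset G H ∈ 𝓝 X) :
    zset G H = dom G H := by
  refine Set.Subset.antisymm (fun Y hY => hY.1) ?_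
  intro Y hY
  refine ⟨hY, ?_⟩
  intro i j hij hG hH
  have hXd : X ∈ dom G H := (mem_of_mem_nhds hX).1
  have h0 : (fun X => cmp G H X i j) =ᶠ[𝓝 X] 0 := by
    filter_upwards [hX] with W hW
    exact hW.2 i j hij hG hH
  exact (analyticOnNhd_cmp_entry G H i j).eqOn_zero_of_preconnected_of_eventuallyEq_zero
    (convex_dom G H).isPreconnected hXd h0 hY

/-- If every parameter gives a point of the model then the model is an analytic submanifold. -/
lemma isEmbeddedSubmanifold_of_zset_eq_dom (G H : SimpleGraph V) (h : zset G H = dom G H)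
    (k : ℕ∞ω) :
    IsEmbeddedSubmanifoldOfDim k (Module.finrank ℝ (edgeSpace G H)) (corrModel G H) := by
  classical
  intro A₀ hA₀
  set p : Matrix V V ℝ → edgeSpace G H := fun A => proj G H A with hp
  have hpc : Continuous p := (proj G H).continuous
  have hopen : IsOpen (p ⁻¹' dom G H) := (isOpen_dom G H).preimage hpc
  have hpX : ∀ X : edgeSpace G H, p X.1 = X := proj_coe G H
  have hf : ContDiffOn ℝ ω (fun A : Matrix V V ℝ => cmp G H (p A)) (p ⁻¹' dom G H) := by
    intro A hA
    have := (contDiffAt_cmp G H (X := p A) hA).comp A ((proj G H).contDiff.contDiffAt (n := ω))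
    exact this.contDiffWithinAt
  have hfc : ContinuousOn (fun A : Matrix V V ℝ => cmp G H (p A)) (p ⁻¹' dom G H) := hf.continuousOn
  have hg : ContDiff ℝ ω (fun A : Matrix V V ℝ => ((p A : edgeSpace G H) : Matrix V V ℝ)) :=
    (edgeSpace G H).subtypeL.contDiff.comp (proj G H).contDiff
  have hgc : Continuous (fun A : Matrix V V ℝ => ((p A : edgeSpace G H) : Matrix V V ℝ)) :=
    hg.continuous
  have hp1 : ∀ A ∈ p ⁻¹' dom G H, p (A - cmp G H (p A) + (p A).1) = p A := by
    intro A hA
    have e1 : p (A - cmp G H (p A) + (p A).1) = p A - p (cmp G H (p A)) + p (p A).1 := by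
      simp only [hp, map_add, map_sub]
    rw [e1, hpX]
    have e2 : p (cmp G H (p A)) = p A := proj_cmp G H hA
    rw [e2]; abel
  have hp2 : ∀ A ∈ p ⁻¹' dom G H, p (A + cmp G H (p A) - (p A).1) = p A := by
    intro A hA
    have e1 : p (A + cmp G H (p A) - (p A).1) = p A + p (cmp G H (p A)) - p (p A).1 := by
      simp only [hp, map_add, map_sub]
    rw [e1, hpX]
    have e2 : p (cmp G H (p A)) = p A := proj_cmp G H hA
    rw [e2]; abel
  let φ : OpenPartialHomeomorph (Matrix V V ℝ) (Matrix V V ℝ) :=
    { toFun := fun A => A - cmp G H (p A) + (p A).1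
      invFun := fun A => A + cmp G H (p A) - (p A).1
      source := p ⁻¹' dom G H
      target := p ⁻¹' dom G H
      map_source' := by
        intro A hA
        rw [Set.mem_preimage, hp1 A hA]; exact hA
      map_target' := by
        intro A hA
        rw [Set.mem_preimage, hp2 A hA]; exact hA
      left_inv' := by
        intro A hA
        rw [hp1 A hA]; abel
      right_inv' := by
        intro A hA
        rw [hp2 A hA]; abel
      open_source := hopen
      open_target := hopen
      continuousOn_toFun := (continuousOn_id.sub hfc).add hgc.continuousOn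
      continuousOn_invFun := (continuousOn_id.add hfc).sub hgc.continuousOn }
  refine ⟨φ, edgeSpace G H, rfl, ?_, ?_, ?_, ?_⟩
  · exact (corrModel_param G H hA₀).1.1
  · exact ((contDiffOn_id.sub hf).add hg.contDiffOn).of_le le_top
  · exact ((contDiffOn_id.add hf).sub hg.contDiffOn).of_le le_top
  · ext B
    constructor
    · rintro ⟨A, ⟨hA1, hA2⟩, rfl⟩
      refine ⟨φ.map_source hA1, ?_⟩
      have e : A - cmp G H (p A) + (p A).1 = (p A).1 := by
        have : cmp G H (p A) = A := (corrModel_param G H hA2).2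
        rw [this]; abel
      change A - cmp G H (p A) + (p A).1 ∈ edgeSpace G H
      rw [e]
      exact (p A).2
    · rintro ⟨hB1, hB2⟩
      have hB1' : p B ∈ dom G H := hB1
      have hpB : (p B).1 = B := congrArg Subtype.val (hpX ⟨B, hB2⟩)
      refine ⟨cmp G H (p B), ⟨?_, ?_⟩, ?_⟩
      · change p (cmp G H (p B)) ∈ dom G H
        rw [show p (cmp G H (p B)) = p B from proj_cmp G H hB1']
        exact hB1'
      · apply cmp_mem_corrModel
        rw [h]; exact hB1'
      · change cmp G H (p B) - cmp G H (p (cmp G H (p B))) + (p (cmp G H (p B))).1 = B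
        rw [show p (cmp G H (p B)) = p B from proj_cmp G H hB1', hpB]
        abel

omit [Fintype V] in
lemma one_isSymm : (1 : Matrix V V ℝ).IsSymm := Matrix.isSymm_one

lemma one_mem_corrModel (G H : SimpleGraph V) : (1 : Matrix V V ℝ) ∈ corrModel G H := by
  refine ⟨PosDef.one, fun i => by simp, ?_, ?_⟩
  · intro i j hij _; simp [hij]
  · intro i j hij _; simp [hij]

lemma corrModel_subset_closure (G H : SimpleGraph V) :
    corrModel G H ⊆ zariskiClosure (corrModel G H) := by
  intro A hA
  exact ⟨PosDef_isSymm hA.1, fun p hp => hp A hA⟩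

/-- If every parameter gives a point of the model then its Zariski closure is irreducible. -/
lemma irreducible_of_zset_eq_dom (G H : SimpleGraph V) (h : zset G H = dom G H) :
    IsZariskiIrreducible (zariskiClosure (corrModel G H)) := by
  refine ⟨⟨1, corrModel_subset_closure G H (one_mem_corrModel G H)⟩, ?_⟩
  intro I J hIJ
  by_contra hcon
  push Not at hcon
  obtain ⟨hI, hJ⟩ := hcon
  have key : ∀ I : Set (MvPolynomial (V × V) ℝ),
      ¬ zariskiClosure (corrModel G H) ⊆ symZeroLocus I →
      ∃ p ∈ I, ∃ A ∈ corrModel G H, MvPolynomial.eval (fun ij : V × V => A ij.1 ij.2) p ≠ 0 := by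
    intro I hI
    by_contra hc
    push Not at hc
    apply hI
    intro B hB
    exact ⟨hB.1, fun p hp => hB.2 p (fun A hA => hc p hp A hA)⟩
  obtain ⟨p, hpI, A, hA, hpA⟩ := key I hI
  obtain ⟨q, hqJ, B, hB, hqB⟩ := key J hJ
  have han : ∀ p : MvPolynomial (V × V) ℝ, AnalyticOnNhd ℝ
      (fun X => MvPolynomial.eval (fun ij : V × V => cmp G H X ij.1 ij.2) p) (dom G H) := by
    intro p
    have := AnalyticOnNhd.aeval_mvPolynomial (𝕜 := ℝ) (s := dom G H)
      (f := fun X => fun ij : V × V => cmp G H X ij.1 ij.2)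
      (fun ij => analyticOnNhd_cmp_entry G H ij.1 ij.2) p
    simpa [MvPolynomial.aeval_eq_eval] using this
  obtain ⟨hAz, hAc⟩ := corrModel_param G H hA
  obtain ⟨hBz, hBc⟩ := corrModel_param G H hB
  have hcont : ContinuousAt
      (fun X => MvPolynomial.eval (fun ij : V × V => cmp G H X ij.1 ij.2) p) (proj G H A) :=
    (han p _ hAz.1).continuousAt
  have hne : ∀ᶠ X in 𝓝 (proj G H A),
      MvPolynomial.eval (fun ij : V × V => cmp G H X ij.1 ij.2) p ≠ 0 := by
    apply hcont.eventually_ne
    rw [hAc]; exact hpA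
  have hz : (fun X => MvPolynomial.eval (fun ij : V × V => cmp G H X ij.1 ij.2) q)
      =ᶠ[𝓝 (proj G H A)] 0 := by
    filter_upwards [hne, (isOpen_dom G H).mem_nhds hAz.1] with X hX hXd
    have hXm : cmp G H X ∈ corrModel G H := cmp_mem_corrModel G H (by rw [h]; exact hXd)
    rcases hIJ (corrModel_subset_closure G H hXm) with h' | h'
    · exact absurd (h'.2 p hpI) hX
    · exact h'.2 q hqJ
  have := (han q).eqOn_zero_of_preconnected_of_eventuallyEq_zero
    (convex_dom G H).isPreconnected hAz.1 hz hBz.1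
  simp only [hBc] at this
  exact hqB this

end Pool.Agent.Work.MP_0a1f67_ag
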