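import Pool.Agent.Work.MP_0a1f67_ag.PosDef

open Matrix Filter Topology
open scoped Matrix.Norms.Frobenius

namespace Pool.Agent.Work.MP_0a1f67_ag

variable {V : Type*} [Fintype V] [DecidableEq V]

omit [DecidableEq V] in
lemma continuous_quad : Continuous
    (fun z : Matrix V V ℝ × (V → ℝ) => z.2 ⬝ᵥ (z.1 *ᵥ z.2)) := by
  simp only [dotProduct, mulVec]
  refine continuous_finsetSum _ fun i _ => ?_
  refine ((continuous_apply i).comp continuous_snd).mul ?_
  refine continuous_finsetSum _ fun j _ => ?_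
  exact ((continuous_apply j).comp ((continuous_apply i).comp continuous_fst)).mul
    ((continuous_apply j).comp continuous_snd)

lemma eventually_posDef {A₀ : Matrix V V ℝ} (h : A₀.PosDef) :
    ∀ᶠ A in 𝓝 A₀, A.IsSymm → A.PosDef := by
  have key : ∀ᶠ A in 𝓝 A₀, ∀ x ∈ Metric.sphere (0 : V → ℝ) 1, 0 < x ⬝ᵥ (A *ᵥ x) := by
    refine IsCompact.eventually_forall_of_forall_eventually
      (P := fun A x => 0 < x ⬝ᵥ (A *ᵥ x)) (isCompact_sphere (0 : V → ℝ) 1) ?_
    intro x hx
    have hx0 : x ≠ 0 := by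
      rintro rfl
      simp at hx
    have hpos : 0 < x ⬝ᵥ (A₀ *ᵥ x) := by
      have := h.dotProduct_mulVec_pos hx0
      simpa using this
    exact (continuous_quad.tendsto (A₀, x)).eventually (lt_mem_nhds hpos)
  filter_upwards [key] with A hA hs
  refine PosDef.of_dotProduct_mulVec_pos ?_ ?_
  · rw [IsHermitian, conjTranspose_eq_transpose_of_trivial]; exact hs
  · intro x hx
    have hn : 0 < ‖x‖ := norm_pos_iff.mpr hx
    have h1 := hA (‖x‖⁻¹ • x) (by simp [norm_smul, hn.ne'])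
    rw [mulVec_smul, smul_dotProduct, dotProduct_smul, smul_eq_mul, smul_eq_mul] at h1
    have h2 : 0 < x ⬝ᵥ (A *ᵥ x) := by
      by_contra hcon
      push Not at hcon
      have : ‖x‖⁻¹ * (‖x‖⁻¹ * (x ⬝ᵥ (A *ᵥ x))) ≤ 0 := by
        have : 0 < ‖x‖⁻¹ := inv_pos.mpr hn
        nlinarith [mul_nonneg this.le this.le]
      linarith
    simpa using h2

end Pool.Agent.Work.MP_0a1f67_ag
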