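import Pool.Agent.Work.MP_0a1f67_ag.Section
import Pool.Agent.Work.MP_0a1f67_ag.Defs

open Matrix Filter Topology
open scoped Matrix.Norms.Frobenius ContDiff

namespace Pool.Agent.Work.MP_0a1f67_ag

variable {V : Type*} [Fintype V] [DecidableEq V]

/-- Symmetric matrices supported on the common edges of `G` and `H`. -/
def edgeSpace (G H : SimpleGraph V) : Submodule ℝ (Matrix V V ℝ) where
  carrier := {X | X.IsSymm ∧ ∀ i j, ¬ (G.Adj i j ∧ H.Adj i j) → X i j = 0}
  add_mem' := by
    rintro A B ⟨hA, hA'⟩ ⟨hB, hB'⟩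
    exact ⟨hA.add hB, fun i j h => by simp [hA' i j h, hB' i j h]⟩
  zero_mem' := ⟨Matrix.isSymm_zero, fun _ _ _ => rfl⟩
  smul_mem' := by
    rintro c A ⟨hA, hA'⟩
    exact ⟨hA.smul c, fun i j h => by simp [hA' i j h]⟩

/-- Parameter domain. -/
def dom (G H : SimpleGraph V) : Set (edgeSpace G H) :=
  {X | ∃ S : Matrix V V ℝ, S.PosDef ∧ (∀ i, S i i = 1) ∧ ∀ i j, G.Adj i j → S i j = X.1 i j}

lemma zero_mem_dom (G H : SimpleGraph V) : (0 : edgeSpace G H) ∈ dom G H :=
  ⟨1, PosDef.one, fun i => by simp, fun i j h => by simp [Matrix.one_apply, h.ne]⟩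

lemma convex_dom (G H : SimpleGraph V) : Convex ℝ (dom G H) := by
  rintro X ⟨S, hS, hS1, hS2⟩ Y ⟨T, hT, hT1, hT2⟩ a b ha hb hab
  refine ⟨a • S + b • T, ?_, ?_, ?_⟩
  · rcases ha.eq_or_lt with h | h
    · have : b = 1 := by linarith
      subst h; subst this; simpa using hT
    · rcases hb.eq_or_lt with h' | h'
      · have : a = 1 := by linarith
        subst h'; subst this; simpa using hS
      · exact (hS.smul h).add (hT.smul h')
  · intro i; simp [hS1 i, hT1 i, hab]
  · intro i j h; simp [hS2 i j h, hT2 i j h]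

lemma exists_comp (G H : SimpleGraph V) {X : edgeSpace G H} (hX : X ∈ dom G H) :
    ∃ A : Matrix V V ℝ, A.PosDef ∧ (∀ i, A i i = 1) ∧ (∀ i j, G.Adj i j → A i j = X.1 i j) ∧
      ∀ i j, i ≠ j → ¬ G.Adj i j → A⁻¹ i j = 0 := by
  obtain ⟨S, hS, hS1, hS2⟩ := hX
  obtain ⟨A, hA, hA1, hA2, hA3⟩ := exists_completion G hS
  exact ⟨A, hA, fun i => (hA1 i).trans (hS1 i), fun i j h => (hA2 i j h).trans (hS2 i j h), hA3⟩

open Classical in
/-- The positive definite completion. -/
noncomputable def cmp (G H : SimpleGraph V) (X : edgeSpace G H) : Matrix V V ℝ :=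
  if h : X ∈ dom G H then Classical.choose (exists_comp G H h) else 0

lemma cmp_spec (G H : SimpleGraph V) {X : edgeSpace G H} (hX : X ∈ dom G H) :
    (cmp G H X).PosDef ∧ (∀ i, cmp G H X i i = 1) ∧
      (∀ i j, G.Adj i j → cmp G H X i j = X.1 i j) ∧
      ∀ i j, i ≠ j → ¬ G.Adj i j → (cmp G H X)⁻¹ i j = 0 := by
  unfold cmp
  rw [dif_pos hX]
  exact Classical.choose_spec (exists_comp G H hX)

lemma cmp_unique (G H : SimpleGraph V) {X : edgeSpace G H} {A : Matrix V V ℝ}
    (hA : A.PosDef) (h1 : ∀ i, A i i = 1) (h2 : ∀ i j, G.Adj i j → A i j = X.1 i j)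
    (h3 : ∀ i j, i ≠ j → ¬ G.Adj i j → A⁻¹ i j = 0) : cmp G H X = A := by
  have hX : X ∈ dom G H := ⟨A, hA, h1, h2⟩
  obtain ⟨g1, g2, g3, g4⟩ := cmp_spec G H hX
  refine completion_unique (P := fun i j => i = j ∨ G.Adj i j) g1 hA ?_ ?_
  · rintro i j (rfl | h)
    · rw [g2, h1]
    · rw [g3 i j h, h2 i j h]
  · intro i j h
    push Not at h
    rw [g4 i j h.1 h.2, h3 i j h.1 h.2]

lemma isOpen_dom (G H : SimpleGraph V) : IsOpen (dom G H) := by
  rw [isOpen_iff_mem_nhds]
  rintro X ⟨S, hS, hS1, hS2⟩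
  have hlim : Tendsto (fun Y : edgeSpace G H => S + (Y.1 - X.1)) (𝓝 X) (𝓝 S) := by
    have hc : Continuous (fun Y : edgeSpace G H => S + (Y.1 - X.1)) :=
      continuous_const.add (continuous_subtype_val.sub continuous_const)
    have := hc.tendsto X
    simpa using this
  have hS' : S.IsSymm := by
    have := hS.isHermitian
    rwa [IsHermitian, conjTranspose_eq_transpose_of_trivial] at this
  filter_upwards [hlim.eventually (eventually_posDef hS)] with Y hY
  refine ⟨S + (Y.1 - X.1), hY ?_, ?_, ?_⟩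
  · exact hS'.add (Y.2.1.sub X.2.1)
  · intro i
    have a1 : Y.1 i i = 0 := Y.2.2 i i (by simp)
    have a2 : X.1 i i = 0 := X.2.2 i i (by simp)
    simp [hS1, a1, a2]
  · intro i j h
    simp [hS2 i j h]

/-- Equal or adjacent. -/
def nb (G : SimpleGraph V) (i j : V) : Prop := i = j ∨ G.Adj i j

lemma psi_cmp (G H : SimpleGraph V) {X : edgeSpace G H} (hX : X ∈ dom G H) :
    psi (nb G) (cmp G H X) = 1 + X.1 := by
  obtain ⟨g1, g2, g3, g4⟩ := cmp_spec G H hX
  ext i j
  by_cases hij : i = j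
  · subst hij
    rw [psi_apply_pos (P := nb G) (Or.inl rfl), g2]
    have : X.1 i i = 0 := X.2.2 i i (by simp)
    simp [this]
  · by_cases hG : G.Adj i j
    · rw [psi_apply_pos (P := nb G) (Or.inr hG), g3 i j hG]
      simp [hij]
    · have hn : ¬ nb G i j := by
        rintro (h | h)
        · exact hij h
        · exact hG h
      rw [psi_apply_neg hn, g4 i j hij hG]
      have : X.1 i j = 0 := X.2.2 i j (fun h => hG h.1)
      simp [Matrix.one_apply, hij, this]

lemma psi_transpose {P : V → V → Prop} (hP : ∀ i j, P i j ↔ P j i) (A : Matrix V V ℝ) :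
    psi P Aᵀ = (psi P A)ᵀ := by
  ext i j
  rw [transpose_apply]
  by_cases h : P i j
  · rw [psi_apply_pos h, psi_apply_pos ((hP i j).mp h), transpose_apply]
  · rw [psi_apply_neg h, psi_apply_neg (fun h' => h ((hP i j).mpr h')), ← transpose_nonsing_inv,
      transpose_apply]

/-- The completion depends real-analytically on the parameter. -/
lemma contDiffAt_cmp (G H : SimpleGraph V) {X : edgeSpace G H} (hX : X ∈ dom G H) :
    ContDiffAt ℝ ω (cmp G H) X := by
  have hPs : ∀ i j, nb G i j ↔ nb G j i := by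
    intro i j
    unfold nb
    rw [G.adj_comm, eq_comm]
  obtain ⟨g1, g2, g3, g4⟩ := cmp_spec G H hX
  obtain ⟨g, hg1, hg2, hg3, hg4⟩ := exists_local_inverse (nb G) g1
  rw [psi_cmp G H hX] at hg1 hg2 hg4
  have hy : ContDiffAt ℝ ω (fun Y : edgeSpace G H => (1 : Matrix V V ℝ) + Y.1) X :=
    contDiffAt_const.add ((edgeSpace G H).subtypeL.contDiff.contDiffAt)
  have hcomp : ContDiffAt ℝ ω (fun Y : edgeSpace G H => g (1 + Y.1)) X :=
    ContDiffAt.comp X (g := g) (f := fun Y : edgeSpace G H => (1 : Matrix V V ℝ) + Y.1) hg1 hy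
  refine hcomp.congr_of_eventuallyEq ?_
  -- the local inverse agrees with the completion
  have hlim1 : Tendsto (fun Y : edgeSpace G H => (1 : Matrix V V ℝ) + Y.1) (𝓝 X) (𝓝 (1 + X.1)) :=
    hy.continuousAt
  have hlim2 : Tendsto (fun Y : edgeSpace G H => g (1 + Y.1)) (𝓝 X) (𝓝 (cmp G H X)) := by
    have := hcomp.continuousAt.tendsto
    rwa [hg2] at this
  have hsymm : (cmp G H X).IsSymm := by
    have := g1.isHermitian
    rwa [IsHermitian, conjTranspose_eq_transpose_of_trivial] at this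
  have hlim3 : Tendsto (fun Y : edgeSpace G H => (g (1 + Y.1))ᵀ) (𝓝 X) (𝓝 (cmp G H X)) := by
    have h := (continuous_id.matrix_transpose : Continuous fun A : Matrix V V ℝ => Aᵀ).tendsto
      (cmp G H X)
    have h' : Tendsto (fun A : Matrix V V ℝ => Aᵀ) (𝓝 (cmp G H X)) (𝓝 (cmp G H X)) := by
      have e : (id (cmp G H X))ᵀ = cmp G H X := hsymm
      rw [e] at h
      exact h
    exact h'.comp hlim2
  filter_upwards [hlim1.eventually hg4, hlim2.eventually hg3, hlim3.eventually hg3,
    hlim2.eventually (eventually_posDef g1)] with Y h1 h2 h3 h4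
  set A := g (1 + Y.1) with hA
  have hsA : A.IsSymm := by
    have e : psi (nb G) Aᵀ = psi (nb G) A := by
      rw [psi_transpose hPs, h1, transpose_add, transpose_one, Y.2.1]
    rw [e, h2] at h3
    exact h3.symm
  have hpd := h4 hsA
  have key : ∀ i j, psi (nb G) A i j = ((1 : Matrix V V ℝ) + Y.1) i j := by
    intro i j; rw [h1]
  refine cmp_unique G H hpd ?_ ?_ ?_
  · intro i
    have := key i i
    rw [psi_apply_pos (P := nb G) (Or.inl rfl)] at this
    rw [this]
    have : Y.1 i i = 0 := Y.2.2 i i (by simp)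
    simp [this]
  · intro i j h
    have := key i j
    rw [psi_apply_pos (P := nb G) (Or.inr h)] at this
    rw [this]
    simp [Matrix.one_apply, h.ne]
  · intro i j hij hG
    have := key i j
    have hn : ¬ nb G i j := by
      rintro (h | h)
      · exact hij h
      · exact hG h
    rw [psi_apply_neg hn] at this
    rw [this]
    have : Y.1 i j = 0 := Y.2.2 i j (fun h => hG h.1)
    simp [Matrix.one_apply, hij, this]

end Pool.Agent.Work.MP_0a1f67_ag
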