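import Mathlib

open Matrix

namespace Pool.Agent.Work.MP_0a1f67_ag

variable {V : Type*} [Fintype V] [DecidableEq V]

open scoped MatrixOrder in
lemma exists_factor {Q : Matrix V V ℝ} (hQ : Q.PosDef) :
    ∃ R : Matrix V V ℝ, IsUnit R ∧ Q = Rᵀ * R := by
  obtain ⟨R, hR⟩ := CStarAlgebra.nonneg_iff_eq_star_mul_self.mp hQ.posSemidef.nonneg
  refine ⟨R, ?_, ?_⟩
  · have h1 : IsUnit Q := hQ.isUnit
    rw [hR] at h1
    rw [Matrix.isUnit_iff_isUnit_det] at h1 ⊢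
    rw [Matrix.det_mul] at h1
    exact isUnit_of_mul_isUnit_right h1
  · rw [hR]; rfl

lemma trace_pos_of_posDef {P Q X : Matrix V V ℝ} (hP : P.PosDef) (hQ : Q.PosDef) (hX : X ≠ 0) :
    0 < (Xᵀ * P * X * Q).trace := by
  obtain ⟨S, hSu, hS⟩ := exists_factor hP
  obtain ⟨R, hRu, hR⟩ := exists_factor hQ
  have h1 : (Xᵀ * P * X * Q).trace = ((S * X * Rᵀ)ᴴ * (S * X * Rᵀ)).trace := by
    rw [hS, hR]
    have : (S * X * Rᵀ)ᴴ = R * Xᵀ * Sᵀ := by
      simp [conjTranspose_eq_transpose_of_trivial, Matrix.transpose_mul, Matrix.mul_assoc]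
    rw [this]
    have e1 : Xᵀ * (Sᵀ * S) * X * (Rᵀ * R) = (Xᵀ * Sᵀ * (S * X * Rᵀ)) * R := by
      simp [Matrix.mul_assoc]
    rw [e1, Matrix.trace_mul_comm]
    simp [Matrix.mul_assoc]
  rw [h1]
  have h2 : ((S * X * Rᵀ)ᴴ * (S * X * Rᵀ)).PosSemidef := posSemidef_conjTranspose_mul_self _
  refine lt_of_le_of_ne h2.trace_nonneg ?_
  intro h3
  rw [eq_comm, trace_conjTranspose_mul_self_eq_zero_iff] at h3
  apply hX
  have hSinv : S⁻¹ * S = 1 := Matrix.nonsing_inv_mul _ ((Matrix.isUnit_iff_isUnit_det _).mp hSu)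
  have hRt : IsUnit Rᵀ.det := by
    rw [Matrix.det_transpose]; exact (Matrix.isUnit_iff_isUnit_det _).mp hRu
  have hRinv : Rᵀ * (Rᵀ)⁻¹ = 1 := Matrix.mul_nonsing_inv _ hRt
  calc X = (S⁻¹ * S) * X * (Rᵀ * (Rᵀ)⁻¹) := by rw [hSinv, hRinv]; simp
    _ = S⁻¹ * (S * X * Rᵀ) * (Rᵀ)⁻¹ := by simp [Matrix.mul_assoc]
    _ = 0 := by rw [h3]; simp

/-- Uniqueness of the completion: if `A`, `B` are positive definite, agree on the pairs in `P`
and have inverses agreeing off `P`, then they are equal. -/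
lemma completion_unique {P : V → V → Prop} {A B : Matrix V V ℝ} (hA : A.PosDef) (hB : B.PosDef)
    (h1 : ∀ i j, P i j → A i j = B i j) (h2 : ∀ i j, ¬ P i j → A⁻¹ i j = B⁻¹ i j) : A = B := by
  by_contra hne
  have hX : A - B ≠ 0 := sub_ne_zero.mpr hne
  have hpos := trace_pos_of_posDef (P := B⁻¹) (Q := A⁻¹) hB.inv hA.inv hX
  have hAu : IsUnit A.det := (Matrix.isUnit_iff_isUnit_det _).mp hA.isUnit
  have hBu : IsUnit B.det := (Matrix.isUnit_iff_isUnit_det _).mp hB.isUnit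
  have e1 : B⁻¹ * (A - B) * A⁻¹ = B⁻¹ - A⁻¹ := by
    rw [Matrix.mul_sub, Matrix.sub_mul, Matrix.mul_assoc, Matrix.mul_nonsing_inv _ hAu,
      Matrix.nonsing_inv_mul _ hBu]
    simp
  have e2 : (A - B)ᵀ * B⁻¹ * (A - B) * A⁻¹ = (A - B)ᵀ * (B⁻¹ - A⁻¹) := by
    rw [← e1]; simp [Matrix.mul_assoc]
  rw [e2] at hpos
  have : ((A - B)ᵀ * (B⁻¹ - A⁻¹)).trace = 0 := by
    simp only [Matrix.trace, Matrix.diag, Matrix.mul_apply]
    refine Finset.sum_eq_zero fun i _ => Finset.sum_eq_zero fun j _ => ?_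
    by_cases h : P j i
    · simp [h1 j i h]
    · simp [h2 j i h]
  rw [this] at hpos
  exact lt_irrefl _ hpos

end Pool.Agent.Work.MP_0a1f67_ag
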