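import Pool.Agent.Work.MP_0a1f67_ag.Completion

open Matrix Filter Topology
open scoped Matrix.Norms.Frobenius ContDiff

namespace Pool.Agent.Work.MP_0a1f67_ag

variable {V : Type*} [Fintype V] [DecidableEq V]

open Classical in
/-- Keep only the entries in positions `P`. -/
noncomputable def mask (P : V → V → Prop) : Matrix V V ℝ →L[ℝ] Matrix V V ℝ :=
  LinearMap.toContinuousLinearMap
    { toFun := fun A => Matrix.of fun i j => if P i j then A i j else 0
      map_add' := by
        intro A B; ext i j; by_cases h : P i j <;> simp [h]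
      map_smul' := by
        intro c A; ext i j; by_cases h : P i j <;> simp [h] }

open Classical in
lemma mask_apply (P : V → V → Prop) (A : Matrix V V ℝ) (i j : V) :
    mask P A i j = if P i j then A i j else 0 := rfl

/-- Entries of `A` in positions `P`, entries of the inverse elsewhere. -/
noncomputable def psi (P : V → V → Prop) (A : Matrix V V ℝ) : Matrix V V ℝ :=
  mask P A + mask (fun i j => ¬ P i j) (Ring.inverse A)

lemma psi_apply_pos {P : V → V → Prop} {A : Matrix V V ℝ} {i j : V} (h : P i j) :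
    psi P A i j = A i j := by
  simp [psi, mask_apply, h]

lemma psi_apply_neg {P : V → V → Prop} {A : Matrix V V ℝ} {i j : V} (h : ¬ P i j) :
    psi P A i j = A⁻¹ i j := by
  simp [psi, mask_apply, h, nonsing_inv_eq_ringInverse]

/-- Two-sided multiplication. -/
noncomputable def mlr (K : Matrix V V ℝ) : Matrix V V ℝ →L[ℝ] Matrix V V ℝ :=
  ContinuousLinearMap.mulLeftRight ℝ (Matrix V V ℝ) K K

/-- The derivative of `psi`. -/
noncomputable def psiD (P : V → V → Prop) (K : Matrix V V ℝ) : Matrix V V ℝ →L[ℝ] Matrix V V ℝ :=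
  mask P + (mask (fun i j => ¬ P i j)).comp (-(mlr K))

lemma contDiffAt_psi (P : V → V → Prop) {A : Matrix V V ℝ} (hA : IsUnit A) :
    ContDiffAt ℝ ω (psi P) A := by
  unfold psi
  refine ((mask P).contDiff.contDiffAt).add ?_
  refine (mask (fun i j => ¬ P i j)).contDiff.contDiffAt.comp A ?_
  have := contDiffAt_ringInverse (n := ω) ℝ hA.unit
  simpa using this

lemma hasFDerivAt_psi (P : V → V → Prop) {A : Matrix V V ℝ} (hA : IsUnit A) :
    HasFDerivAt (psi P) (psiD P A⁻¹) A := by
  unfold psi psiD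
  refine ((mask P).hasFDerivAt).add ?_
  refine ((mask (fun i j => ¬ P i j)).hasFDerivAt).comp A ?_
  have := hasFDerivAt_ringInverse (𝕜 := ℝ) hA.unit
  have h2 : ((hA.unit⁻¹ : (Matrix V V ℝ)ˣ) : Matrix V V ℝ) = A⁻¹ := by
    rw [← Ring.inverse_unit, nonsing_inv_eq_ringInverse]; rfl
  rw [h2, IsUnit.unit_spec] at this
  exact this

lemma psiD_injective (P : V → V → Prop) {K : Matrix V V ℝ} (hK : K.PosDef) :
    Function.Injective (psiD P K) := by
  rw [injective_iff_map_eq_zero]
  intro X hX
  by_contra hne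
  have hpos := trace_pos_of_posDef (P := K) (Q := K) hK hK hne
  have e : Xᵀ * K * X * K = Xᵀ * (K * X * K) := by simp [Matrix.mul_assoc]
  rw [e] at hpos
  have hz : (Xᵀ * (K * X * K)).trace = 0 := by
    simp only [Matrix.trace, Matrix.diag]
    refine Finset.sum_eq_zero fun i _ => ?_
    rw [Matrix.mul_apply]
    refine Finset.sum_eq_zero fun j _ => ?_
    have h1 : psiD P K X j i = 0 := by rw [hX]; rfl
    have h2 : psiD P K X j i = mask P X j i + mask (fun i j => ¬ P i j) (-(K * X * K)) j i := rfl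
    rw [h2, mask_apply, mask_apply] at h1
    by_cases h : P j i
    · have : X j i = 0 := by simpa [h] using h1
      rw [transpose_apply, this, zero_mul]
    · have : (K * X * K) j i = 0 := by simpa [h] using h1
      rw [this, mul_zero]
  rw [hz] at hpos
  exact lt_irrefl _ hpos

/-- The derivative of `psi` as an equivalence. -/
noncomputable def psiE (P : V → V → Prop) {K : Matrix V V ℝ} (hK : K.PosDef) :
    Matrix V V ℝ ≃L[ℝ] Matrix V V ℝ :=
  (LinearEquiv.ofInjectiveEndo (psiD P K : Matrix V V ℝ →ₗ[ℝ] Matrix V V ℝ)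
    (psiD_injective P hK)).toContinuousLinearEquiv

lemma psiE_coe (P : V → V → Prop) {K : Matrix V V ℝ} (hK : K.PosDef) :
    (psiE P hK : Matrix V V ℝ →L[ℝ] Matrix V V ℝ) = psiD P K := by
  ext X : 1
  rfl

/-- `psi` has an analytic local inverse near a positive definite matrix. -/
lemma exists_local_inverse (P : V → V → Prop) {A : Matrix V V ℝ} (hA : A.PosDef) :
    ∃ g : Matrix V V ℝ → Matrix V V ℝ, ContDiffAt ℝ ω g (psi P A) ∧ g (psi P A) = A ∧
      (∀ᶠ B in 𝓝 A, g (psi P B) = B) ∧ (∀ᶠ Y in 𝓝 (psi P A), psi P (g Y) = Y) := by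
  have h1 := contDiffAt_psi P hA.isUnit
  have h2 : HasFDerivAt (psi P) (psiE P hA.inv : Matrix V V ℝ →L[ℝ] Matrix V V ℝ) A := by
    rw [psiE_coe]; exact hasFDerivAt_psi P hA.isUnit
  have hn : (ω : WithTop ℕ∞) ≠ 0 := by simp
  refine ⟨h1.localInverse h2 hn, h1.to_localInverse h2 hn, h1.localInverse_apply_image h2 hn,
    ?_, ?_⟩
  · exact (h1.hasStrictFDerivAt' h2 hn).eventually_left_inverse
  · exact (h1.hasStrictFDerivAt' h2 hn).eventually_right_inverse

end Pool.Agent.Work.MP_0a1f67_ag
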