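import Pool.Agent.Work.MP_0a1f67_ag.Defs

open Filter Topology
open scoped ContDiff

namespace Pool.Agent.Work.MP_0a1f67_ag

/-- Let `M` be a `C^k` embedded submanifold (`k ≥ 1`), `x ∈ M`, and `S` a set of vectors such that
`x + t v ∈ M` for `v ∈ S` and small `t`. If a linear map `P` maps the span of `S` onto `F`, then
`P` maps `M` onto a neighbourhood of `P x`. -/
lemma image_mem_nhds_of_submanifold {E F : Type*} [NormedAddCommGroup E] [NormedSpace ℝ E]
    [FiniteDimensional ℝ E] [NormedAddCommGroup F] [NormedSpace ℝ F] [FiniteDimensional ℝ F]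
    (P : E →L[ℝ] F) {k : ℕ∞ω} (hk : 1 ≤ k) {M : Set E} (h : IsEmbeddedSubmanifold k M) {x : E}
    (hxM : x ∈ M) (S : Set E) (hS : ∀ v ∈ S, ∀ᶠ t : ℝ in 𝓝 0, x + t • v ∈ M)
    (hP : ∀ y : F, ∃ v ∈ Submodule.span ℝ S, P v = y) :
    P '' M ∈ 𝓝 (P x) := by
  haveI : CompleteSpace E := FiniteDimensional.complete ℝ E
  haveI : CompleteSpace F := FiniteDimensional.complete ℝ F
  obtain ⟨_, φ, W, _, hx, hφ, hφs, himg⟩ := h x hxM
  have hk0 : k ≠ 0 := by
    rintro rfl
    simp at hk
  set b : E := φ x with hb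
  have hbt : b ∈ φ.target := φ.map_source hx
  have hbsymm : φ.symm b = x := φ.left_inv hx
  have hMW : ∀ A ∈ φ.source, A ∈ M → φ A ∈ W := by
    intro A hA hAM
    have : φ A ∈ φ '' (φ.source ∩ M) := ⟨A, ⟨hA, hAM⟩, rfl⟩
    rw [himg] at this
    exact this.2
  have hWM : ∀ B ∈ φ.target, B ∈ W → φ.symm B ∈ M := by
    intro B hB hBW
    have : B ∈ φ '' (φ.source ∩ M) := by rw [himg]; exact ⟨hB, hBW⟩
    obtain ⟨A, ⟨hA1, hA2⟩, rfl⟩ := this
    rw [φ.left_inv hA1]; exact hA2
  have hbW : b ∈ W := hMW x hx hxM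
  -- derivatives
  have hφ1 : ContDiffAt ℝ k φ x := hφ.contDiffAt (φ.open_source.mem_nhds hx)
  have hφs1 : ContDiffAt ℝ k φ.symm b := hφs.contDiffAt (φ.open_target.mem_nhds hbt)
  have hD : HasStrictFDerivAt φ (fderiv ℝ φ x) x := hφ1.hasStrictFDerivAt hk0
  have hE : HasStrictFDerivAt φ.symm (fderiv ℝ φ.symm b) b := hφs1.hasStrictFDerivAt hk0
  set D := fderiv ℝ φ x with hDdef
  set E' := fderiv ℝ φ.symm b with hEdef
  have hED : ∀ X, E' (D X) = X := by
    have h1 : HasFDerivAt (φ.symm ∘ φ) (E'.comp D) x :=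
      HasFDerivAt.comp x (by rw [← hb]; exact hE.hasFDerivAt) hD.hasFDerivAt
    have h2 : HasFDerivAt (φ.symm ∘ φ) (ContinuousLinearMap.id ℝ _) x := by
      refine (hasFDerivAt_id x).congr_of_eventuallyEq ?_
      filter_upwards [φ.open_source.mem_nhds hx] with A hA
      exact φ.left_inv hA
    have h3 := h1.unique h2
    intro X
    have := congrArg (fun L => L X) h3
    simpa using this
  have hWclosed : IsClosed (W : Set E) := W.closed_of_finiteDimensional
  have hedge : ∀ v ∈ S, D v ∈ W := by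
    intro v hv
    have hγ : HasDerivAt (fun t : ℝ => x + t • v) v 0 := by
      have := ((hasDerivAt_id (0 : ℝ)).smul_const v).const_add x
      simpa using this
    have hγ0 : x + (0 : ℝ) • v = x := by simp
    have hf : HasDerivAt (fun t : ℝ => φ (x + t • v)) (D v) 0 := by
      have h1 : HasFDerivAt φ D (x + (0 : ℝ) • v) := by
        rw [hγ0]; exact hD.hasFDerivAt
      exact h1.comp_hasDerivAt 0 hγ
    rw [hasDerivAt_iff_tendsto_slope] at hf
    refine hWclosed.mem_of_tendsto hf ?_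
    have hlim : Tendsto (fun t : ℝ => x + t • v) (𝓝 0) (𝓝 x) := by
      have := hγ.continuousAt.tendsto
      rwa [hγ0] at this
    have h1 : ∀ᶠ t : ℝ in 𝓝 0, x + t • v ∈ φ.source :=
      hlim.eventually (φ.open_source.mem_nhds hx)
    filter_upwards [nhdsWithin_le_nhds h1, nhdsWithin_le_nhds (hS v hv)] with t ht1 ht2
    rw [slope_def_module, hγ0]
    apply W.smul_mem
    exact W.sub_mem (hMW _ ht1 ht2) hbW
  have hspace : ∀ v ∈ Submodule.span ℝ S, D v ∈ W := by
    intro v hv
    have : Submodule.span ℝ S ≤ W.comap (D : E →ₗ[ℝ] E) := by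
      rw [Submodule.span_le]
      intro w hw
      exact hedge w hw
    exact this hv
  have hψ : HasStrictFDerivAt (fun w : W => P (φ.symm (b + (w : E))))
      (P.comp (E'.comp W.subtypeL)) 0 := by
    have h1 : HasStrictFDerivAt (fun w : W => b + (w : E)) W.subtypeL 0 :=
      W.subtypeL.hasStrictFDerivAt.const_add b
    have h2 : HasStrictFDerivAt φ.symm E' (b + ((0 : W) : E)) := by
      simpa using hE
    have h3 : HasStrictFDerivAt (fun w : W => φ.symm (b + (w : E)))
        (E'.comp W.subtypeL) 0 := HasStrictFDerivAt.comp 0 h2 h1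
    exact P.hasStrictFDerivAt.comp 0 h3
  have hsurj : (P.comp (E'.comp W.subtypeL)).range = ⊤ := by
    rw [LinearMap.range_eq_top]
    intro y
    obtain ⟨v, hv, rfl⟩ := hP y
    refine ⟨⟨D v, hspace v hv⟩, ?_⟩
    change P (E' (D v)) = P v
    rw [hED]
  haveI : CompleteSpace W := FiniteDimensional.complete ℝ W
  have hmap := hψ.map_nhds_eq_of_surj hsurj
  have hval : φ.symm (b + ((0 : W) : E)) = x := by
    have : (b + ((0 : W) : E)) = b := by simp
    rw [this, hbsymm]
  rw [hval] at hmap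
  rw [← hmap, mem_map]
  have hcont : Tendsto (fun w : W => b + (w : E)) (𝓝 0) (𝓝 b) := by
    have h1 : Continuous (fun w : W => b + (w : E)) :=
      continuous_const.add continuous_subtype_val
    have := h1.tendsto 0
    simpa using this
  filter_upwards [hcont.eventually (φ.open_target.mem_nhds hbt)] with w hw
  exact ⟨_, hWM _ hw (W.add_mem hbW w.2), rfl⟩

end Pool.Agent.Work.MP_0a1f67_ag
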