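import Pool.Agent.Work.MP_0a1f67_ag.Main
import Pool.Agent.Work.MP_0a1f67_ag.Submersion

open Matrix Filter Topology
open scoped Matrix.Norms.Frobenius ContDiff

namespace Pool.Agent.Work.MP_0a1f67_ag

variable {V : Type*} [Fintype V] [DecidableEq V]

lemma esym_mul_esym {i j : V} (hij : i ≠ j) :
    esym i j * esym i j = (single i i 1 + single j j 1 : Matrix V V ℝ) := by
  unfold esym
  rw [Matrix.add_mul, Matrix.mul_add, Matrix.mul_add,
    single_mul_single_of_ne (1 : ℝ) i j i hij.symm, single_mul_single_same,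
    single_mul_single_same, single_mul_single_of_ne (1 : ℝ) j i j hij]
  simp

lemma esym_mul_diag {i j : V} (hij : i ≠ j) :
    esym i j * (single i i 1 + single j j 1 : Matrix V V ℝ) = esym i j := by
  unfold esym
  rw [Matrix.add_mul, Matrix.mul_add, Matrix.mul_add,
    single_mul_single_of_ne (1 : ℝ) i j i hij.symm, single_mul_single_same,
    single_mul_single_same, single_mul_single_of_ne (1 : ℝ) j i j hij]
  simp

/-- The line through the identity in the direction of a common edge lies in the model. -/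
lemma line_mem_corrModel (G H : SimpleGraph V) {i j : V} (hG : G.Adj i j) (hH : H.Adj i j)
    {t : ℝ} (ht : |t| < 1) : (1 + t • esym i j : Matrix V V ℝ) ∈ corrModel G H := by
  have hij : i ≠ j := hG.ne
  have ht2 : 0 < 1 - t ^ 2 := by
    have := abs_lt.mp ht
    nlinarith
  -- the inverse
  set B : Matrix V V ℝ := 1 + (t ^ 2 / (1 - t ^ 2)) • (single i i 1 + single j j 1) -
    (t / (1 - t ^ 2)) • esym i j with hB
  have hmul : (1 + t • esym i j) * B = 1 := by
    have e1 := esym_mul_esym hij
    have e2 := esym_mul_diag hij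
    rw [hB]
    generalize hD : (single i i 1 + single j j 1 : Matrix V V ℝ) = D at e1 e2 ⊢
    have e3 : (1 + t • esym i j) * (1 + (t ^ 2 / (1 - t ^ 2)) • D -
        (t / (1 - t ^ 2)) • esym i j) =
        1 + (t ^ 2 / (1 - t ^ 2) - t * (t / (1 - t ^ 2))) • D +
          (t + t * (t ^ 2 / (1 - t ^ 2)) - t / (1 - t ^ 2)) • esym i j := by
      rw [Matrix.add_mul, Matrix.mul_sub, Matrix.mul_add, Matrix.one_mul, Matrix.one_mul,
        Matrix.one_mul, smul_mul_assoc, Matrix.mul_sub, Matrix.mul_add, Matrix.mul_one,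
        Matrix.mul_smul, Matrix.mul_smul, e1, e2]
      module
    rw [e3]
    have c1 : t ^ 2 / (1 - t ^ 2) - t * (t / (1 - t ^ 2)) = 0 := by ring
    have c2 : t + t * (t ^ 2 / (1 - t ^ 2)) - t / (1 - t ^ 2) = 0 := by
      field_simp
      ring
    rw [c1, c2]; simp
  have hinv : (1 + t • esym i j)⁻¹ = B := Matrix.inv_eq_right_inv hmul
  have hoff : ∀ a b, ¬ (i = a ∧ j = b) → ¬ (j = a ∧ i = b) → esym i j a b = 0 := by
    intro a b h1 h2
    rw [esym_apply]; simp [h1, h2]
  refine ⟨?_, ?_, ?_, ?_⟩
  · refine PosDef.of_dotProduct_mulVec_pos ?_ ?_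
    · rw [IsHermitian, conjTranspose_eq_transpose_of_trivial, transpose_add, transpose_smul,
        transpose_one, esym_isSymm i j]
    · intro x hx
      rw [star_trivial, add_mulVec, dotProduct_add, one_mulVec, smul_mulVec, dotProduct_smul]
      have e1 : x ⬝ᵥ (esym i j *ᵥ x) = 2 * (x i * x j) := by
        unfold esym
        rw [add_mulVec, dotProduct_add, single_mulVec, single_mulVec,
          show Function.update (0 : V → ℝ) i (1 * x j) = Pi.single i (1 * x j) from rfl,
          show Function.update (0 : V → ℝ) j (1 * x i) = Pi.single j (1 * x i) from rfl,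
          dotProduct_single, dotProduct_single]
        ring
      rw [e1, smul_eq_mul]
      have e2 : x i ^ 2 + x j ^ 2 ≤ x ⬝ᵥ x := by
        have : x i ^ 2 + x j ^ 2 = ∑ k ∈ ({i, j} : Finset V), x k * x k := by
          rw [Finset.sum_pair hij]; ring
        rw [this, dotProduct]
        exact Finset.sum_le_sum_of_subset_of_nonneg (Finset.subset_univ _)
          (fun k _ _ => mul_self_nonneg _)
      have e3 : 0 < x ⬝ᵥ x := by
        have := dotProduct_star_self_pos_iff.mpr hx
        simpa using this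
      have ht' := abs_lt.mp ht
      have e4 : -(|t| * (x i ^ 2 + x j ^ 2)) ≤ t * (2 * (x i * x j)) := by
        have h1 : |t * (2 * (x i * x j))| ≤ |t| * (x i ^ 2 + x j ^ 2) := by
          rw [abs_mul]
          apply mul_le_mul_of_nonneg_left _ (abs_nonneg t)
          rw [abs_le]
          constructor <;> nlinarith [sq_nonneg (x i + x j), sq_nonneg (x i - x j)]
        exact (abs_le.mp h1).1
      have e5 : |t| * (x i ^ 2 + x j ^ 2) ≤ |t| * (x ⬝ᵥ x) :=
        mul_le_mul_of_nonneg_left e2 (abs_nonneg t)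
      have e6 : |t| * (x ⬝ᵥ x) < 1 * (x ⬝ᵥ x) := mul_lt_mul_of_pos_right ht e3
      linarith
  · intro a
    have : esym i j a a = 0 := by
      apply hoff
      · rintro ⟨rfl, h⟩; exact hij h.symm
      · rintro ⟨rfl, h⟩; exact hij h
    simp [this]
  · intro a b hab hGab
    rw [hinv, hB]
    have h1 : esym i j a b = 0 := by
      apply hoff
      · rintro ⟨rfl, rfl⟩; exact hGab hG
      · rintro ⟨rfl, rfl⟩; exact hGab hG.symm
    have h2 : (single i i 1 : Matrix V V ℝ) a b = 0 := by
      apply single_apply_of_ne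
      rintro ⟨rfl, h⟩; exact hab h
    have h3 : (single j j 1 : Matrix V V ℝ) a b = 0 := by
      apply single_apply_of_ne
      rintro ⟨rfl, h⟩; exact hab h
    rw [Matrix.sub_apply, Matrix.add_apply, Matrix.smul_apply, Matrix.smul_apply, Matrix.add_apply,
      h1, h2, h3]
    simp [hab]
  · intro a b hab hHab
    have h1 : esym i j a b = 0 := by
      apply hoff
      · rintro ⟨rfl, rfl⟩; exact hHab hH
      · rintro ⟨rfl, rfl⟩; exact hHab hH.symm
    simp [h1, hab]

lemma edgeSpace_eq_sum (G H : SimpleGraph V) (X : edgeSpace G H) :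
    X.1 = ∑ i, ∑ j, (X.1 i j / 2) • esym i j := by
  have h1 : ∑ i, ∑ j, (X.1 i j / 2) • esym i j =
      ∑ i, ∑ j, single i j (X.1 i j / 2) + ∑ i, ∑ j, single j i (X.1 i j / 2) := by
    rw [← Finset.sum_add_distrib]
    refine Finset.sum_congr rfl fun i _ => ?_
    rw [← Finset.sum_add_distrib]
    refine Finset.sum_congr rfl fun j _ => ?_
    unfold esym
    rw [smul_add, smul_single, smul_single]
    simp
  rw [h1]
  have h2 : ∑ i, ∑ j, single j i (X.1 i j / 2) = ∑ i, ∑ j, single i j (X.1 i j / 2) := by
    rw [Finset.sum_comm]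
    refine Finset.sum_congr rfl fun i _ => Finset.sum_congr rfl fun j _ => ?_
    rw [X.2.1.apply i j]
  rw [h2, ← Finset.sum_add_distrib]
  conv_lhs => rw [matrix_eq_sum_single X.1]
  refine Finset.sum_congr rfl fun i _ => ?_
  rw [← Finset.sum_add_distrib]
  refine Finset.sum_congr rfl fun j _ => ?_
  rw [← single_add]
  congr 1
  ring

/-- If the model is a `C^k` embedded submanifold (`k ≥ 1`) then its parameters fill a
neighbourhood of the origin. -/
lemma zset_mem_nhds_of_submanifold (G H : SimpleGraph V) {k : ℕ∞ω} (hk : 1 ≤ k)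
    (h : IsEmbeddedSubmanifold k (corrModel G H)) :
    zset G H ∈ 𝓝 (0 : edgeSpace G H) := by
  have key : proj G H '' corrModel G H ∈ 𝓝 (proj G H 1) := by
    refine image_mem_nhds_of_submanifold (proj G H) hk h (one_mem_corrModel G H)
      {X : Matrix V V ℝ | ∃ i j, G.Adj i j ∧ H.Adj i j ∧ X = esym i j} ?_ ?_
    · rintro _ ⟨i, j, hG, hH, rfl⟩
      have h2 : ∀ᶠ t : ℝ in 𝓝 0, |t| < 1 := by
        have : Tendsto (fun t : ℝ => |t|) (𝓝 0) (𝓝 |0|) := continuous_abs.tendsto 0
        rw [abs_zero] at this
        exact this.eventually (gt_mem_nhds one_pos)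
      filter_upwards [h2] with t ht
      exact line_mem_corrModel G H hG hH ht
    · intro X
      refine ⟨X.1, ?_, proj_coe G H X⟩
      rw [edgeSpace_eq_sum G H X]
      refine Submodule.sum_mem _ fun i _ => Submodule.sum_mem _ fun j _ => ?_
      by_cases hc : G.Adj i j ∧ H.Adj i j
      · exact Submodule.smul_mem _ _ (Submodule.subset_span ⟨i, j, hc.1, hc.2, rfl⟩)
      · rw [X.2.2 i j hc]; simp
  have h0 : proj G H 1 = 0 := by
    have := proj_cmp G H (zero_mem_dom G H)
    have h0 : cmp G H 0 = 1 := by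
      apply cmp_unique G H PosDef.one (fun i => by simp)
      · intro i j h; simp [h.ne]
      · intro i j hij _; simp [hij]
    rwa [h0] at this
  rw [h0] at key
  refine mem_of_superset key ?_
  rintro _ ⟨A, hA, rfl⟩
  exact (corrModel_param G H hA).1

/-- A smooth model contains every positive definite completion. -/
theorem zset_eq_dom_of_submanifold (G H : SimpleGraph V) {k : ℕ∞ω} (hk : 1 ≤ k)
    (h : IsEmbeddedSubmanifold k (corrModel G H)) : zset G H = dom G H :=
  zset_eq_dom G H (zset_mem_nhds_of_submanifold G H hk h)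

/-- Question 2: a smooth double Markovian correlation model has an irreducible Zariski closure. -/
theorem irreducible_of_submanifold (G H : SimpleGraph V) {k : ℕ∞ω} (hk : 1 ≤ k)
    (h : IsEmbeddedSubmanifold k (corrModel G H)) :
    IsZariskiIrreducible (zariskiClosure (corrModel G H)) :=
  irreducible_of_zset_eq_dom G H (zset_eq_dom_of_submanifold G H hk h)

end Pool.Agent.Work.MP_0a1f67_ag
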